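import Mathlib

set_option autoImplicit false

/-!
# The constants of the squarefree count in residue classes
-/

namespace Pool.Agent.Helper75.SE

theorem consts (ρ c' : ℝ) (hρ0 : 0 < ρ) (hρ1 : ρ < 1) (hc' : 0 < c') :
    ∃ c1 c : ℝ, 0 < c1 ∧ 0 < c ∧ c1 ≤ c' / 2 ∧ ∃ n0 : ℕ, ∀ n : ℕ, n0 ≤ n → ∀ q Z : ℕ, 1 ≤ q →
      (q : ℝ) ≤ Real.exp (c * Real.sqrt n) → Z = ⌊Real.exp (c1 * Real.sqrt n)⌋₊ →
      1 ≤ Z ∧ ∃ k : ℕ, q * Z ^ 2 ≤ 10 ^ k ∧
        100 * ((q : ℝ) * (Z : ℝ) ^ 3) * ρ ^ ((n - 2) / (2 * k + 3)) + 60 / Real.sqrt Z +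
          Real.exp (-(c' / 4 * Real.sqrt n)) + 14 / ((q : ℝ) * Z) ≤
        Real.exp (-(c * Real.sqrt n)) / q := by
  obtain ⟨r, hr⟩ : ∃ r : ℝ, r = -Real.log ρ := ⟨_, rfl⟩
  have hr0 : 0 < r := by
    rw [hr]
    have := Real.log_neg hρ0 hρ1
    linarith
  have hρr : ρ = Real.exp (-r) := by rw [hr, neg_neg, Real.exp_log hρ0]
  obtain ⟨c1, hc1⟩ : ∃ c1 : ℝ, c1 = min (c' / 2) (min 1 (r / 40)) := ⟨_, rfl⟩
  have h1 : 0 < c1 := by
    rw [hc1]
    exact lt_min (by positivity) (lt_min one_pos (by positivity))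
  have h2 : c1 ≤ c' / 2 := by rw [hc1]; exact min_le_left _ _
  have h3 : c1 ≤ 1 := by rw [hc1]; exact (min_le_right _ _).trans (min_le_left _ _)
  have h4 : c1 ≤ r / 40 := by rw [hc1]; exact (min_le_right _ _).trans (min_le_right _ _)
  clear hc1
  refine ⟨c1, c1 / 16, h1, by positivity, h2, ⌈(16 + 56 * c1 + 1000 / c1) ^ 2⌉₊, ?_⟩
  intro n hn q Z hq hqe hZ
  obtain ⟨s, hs⟩ : ∃ s : ℝ, s = Real.sqrt n := ⟨_, rfl⟩
  have hS : 16 + 56 * c1 + 1000 / c1 ≤ s := by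
    rw [hs]
    exact Real.le_sqrt_of_sq_le (Nat.ceil_le.1 hn)
  have hss : s ^ 2 = n := by rw [hs]; exact Real.sq_sqrt (Nat.cast_nonneg n)
  rw [← hs] at hqe hZ ⊢
  have hdiv : 0 < 1000 / c1 := by positivity
  have hs16 : 16 ≤ s := by linarith
  have hs0 : 0 < s := by linarith
  have hsc : 1000 ≤ c1 * s := by
    have h5 : 1000 / c1 ≤ s := by linarith
    rwa [div_le_iff₀ h1, mul_comm] at h5
  have hs56 : 56 * c1 + 16 ≤ s := by linarith
  -- the number `Z`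
  obtain ⟨E, hE⟩ : ∃ E : ℝ, E = Real.exp (c1 * s) := ⟨_, rfl⟩
  have hE0 : 0 < E := by rw [hE]; exact Real.exp_pos _
  have hE1 : 1 ≤ E := by rw [hE]; exact Real.one_le_exp (by positivity)
  rw [← hE] at hZ
  have hZ1 : 1 ≤ Z := by
    rw [hZ]
    exact Nat.le_floor (by simpa using hE1)
  have hZ1r : (1 : ℝ) ≤ Z := by exact_mod_cast hZ1
  have hZle : (Z : ℝ) ≤ E := by rw [hZ]; exact Nat.floor_le hE0.le
  have hZge : E / 2 ≤ Z := by
    have h5 := Nat.lt_floor_add_one E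
    rw [← hZ] at h5
    linarith
  have hq1r : (1 : ℝ) ≤ q := by exact_mod_cast hq
  have hq0 : (0 : ℝ) < q := by linarith
  have hZ0 : (0 : ℝ) < Z := by linarith
  -- the number `k`
  obtain ⟨k, hk⟩ : ∃ k : ℕ, k = ⌈(c1 / 16 + 2 * c1) * s⌉₊ := ⟨_, rfl⟩
  have hkge : (c1 / 16 + 2 * c1) * s ≤ k := by rw [hk]; exact Nat.le_ceil _
  have hkle : (k : ℝ) ≤ 3 * c1 * s + 1 := by
    have h5 : (k : ℝ) < (c1 / 16 + 2 * c1) * s + 1 := by
      rw [hk]
      exact Nat.ceil_lt_add_one (by positivity)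
    have h6 : 0 ≤ c1 * s := by positivity
    have h7 : (c1 / 16 + 2 * c1) * s = 33 / 16 * (c1 * s) := by ring
    rw [h7] at h5
    rw [mul_assoc]
    linarith
  have hk10 : (q : ℝ) * (Z : ℝ) ^ 2 ≤ 10 ^ k := by
    calc (q : ℝ) * (Z : ℝ) ^ 2 ≤ Real.exp (c1 / 16 * s) * E ^ 2 := by gcongr
      _ = Real.exp ((c1 / 16 + 2 * c1) * s) := by
          rw [hE, ← Real.exp_nat_mul, ← Real.exp_add]
          congr 1
          push_cast
          ring
      _ ≤ Real.exp ((k : ℝ) * 1) := by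
          rw [mul_one]
          exact Real.exp_le_exp.2 hkge
      _ = Real.exp 1 ^ k := Real.exp_nat_mul 1 k
      _ ≤ 10 ^ k := by
          apply pow_le_pow_left₀ (Real.exp_pos _).le
          have := Real.exp_one_lt_d9
          linarith
  refine ⟨hZ1, k, by exact_mod_cast hk10, ?_⟩
  obtain ⟨m, hm⟩ : ∃ m : ℕ, m = (n - 2) / (2 * k + 3) := ⟨_, rfl⟩
  rw [← hm]
  have hmlow : s / (8 * c1) ≤ m := by
    have h5 : n - 2 < (2 * k + 3) * (m + 1) := by
      rw [hm]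
      exact Nat.lt_mul_div_succ _ (by omega)
    have h6 : (n : ℝ) - 2 < (2 * (k : ℝ) + 3) * ((m : ℝ) + 1) := by
      have h7 : n < (2 * k + 3) * (m + 1) + 2 := by omega
      have h8 : (n : ℝ) < (2 * (k : ℝ) + 3) * ((m : ℝ) + 1) + 2 := by exact_mod_cast h7
      linarith
    have h7 : 2 * (k : ℝ) + 3 ≤ 7 * c1 * s := by
      rw [mul_assoc] at hkle ⊢
      linarith
    by_contra hcon
    rw [not_le] at hcon
    have h8 : (2 * (k : ℝ) + 3) * ((m : ℝ) + 1) ≤ 7 * c1 * s * (s / (8 * c1) + 1) := by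
      have hm0 : (0 : ℝ) ≤ m := Nat.cast_nonneg m
      exact mul_le_mul h7 (by linarith) (by linarith) (by positivity)
    have h9 : 7 * c1 * s * (s / (8 * c1) + 1) = 7 / 8 * s ^ 2 + 7 * c1 * s := by
      field_simp
    have h10 : 56 * c1 * s + 16 * s ≤ s ^ 2 := by
      have h11 : (56 * c1 + 16) * s ≤ s * s := mul_le_mul_of_nonneg_right hs56 hs0.le
      rw [sq]
      linarith
    rw [← hss] at h6
    rw [h9] at h8
    linarith
  have hrm : 5 * c1 * s ≤ r * m := by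
    have h5 : 5 * c1 * s ≤ r * (s / (8 * c1)) := by
      rw [← mul_div_assoc, le_div_iff₀ (by positivity)]
      have h6 : c1 * c1 ≤ 1 * c1 := mul_le_mul_of_nonneg_right h3 h1.le
      have h7 : 40 * (c1 * c1) ≤ r := by linarith
      have h8 : 40 * (c1 * c1) * s ≤ r * s := mul_le_mul_of_nonneg_right h7 hs0.le
      have h9 : 5 * c1 * s * (8 * c1) = 40 * (c1 * c1) * s := by ring
      rw [h9]
      exact h8
    exact h5.trans (mul_le_mul_of_nonneg_left hmlow hr0.le)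
  have hρm : ρ ^ m ≤ Real.exp (-(5 * c1 * s)) := by
    rw [hρr, ← Real.exp_nat_mul]
    apply Real.exp_le_exp.2
    have h5 : (m : ℝ) * -r = -(r * m) := by ring
    rw [h5]
    linarith
  obtain ⟨G, hG⟩ : ∃ G : ℝ, G = Real.exp (-(c1 * s / 2)) := ⟨_, rfl⟩
  have hG0 : 0 < G := by rw [hG]; exact Real.exp_pos _
  -- the four terms
  have t1 : 100 * ((q : ℝ) * (Z : ℝ) ^ 3) * ρ ^ m ≤ 100 * G := by
    have h5 : ((q : ℝ) * (Z : ℝ) ^ 3) * ρ ^ m ≤
        (Real.exp (c1 / 16 * s) * E ^ 3) * Real.exp (-(5 * c1 * s)) := by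
      gcongr
    have h6 : (Real.exp (c1 / 16 * s) * E ^ 3) * Real.exp (-(5 * c1 * s)) ≤ G := by
      rw [hE, hG, ← Real.exp_nat_mul, ← Real.exp_add, ← Real.exp_add]
      apply Real.exp_le_exp.2
      push_cast
      have h7 : c1 / 16 * s = (c1 * s) / 16 := by ring
      have h8 : 5 * c1 * s = 5 * (c1 * s) := by ring
      rw [h7, h8]
      linarith
    calc 100 * ((q : ℝ) * (Z : ℝ) ^ 3) * ρ ^ m = 100 * (((q : ℝ) * (Z : ℝ) ^ 3) * ρ ^ m) := by ring
      _ ≤ 100 * G := by linarith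
  have hEG : G * Real.exp (c1 * s / 2) = 1 := by
    rw [hG, ← Real.exp_add, neg_add_cancel, Real.exp_zero]
  have hEsq : Real.exp (c1 * s / 2) ^ 2 = E := by
    rw [hE, ← Real.exp_nat_mul]
    congr 1
    push_cast
    ring
  have hF0 : 0 < Real.exp (c1 * s / 2) := Real.exp_pos _
  have t2 : 60 / Real.sqrt Z ≤ 90 * G := by
    have h5 : 2 / 3 * Real.exp (c1 * s / 2) ≤ Real.sqrt Z := by
      apply Real.le_sqrt_of_sq_le
      rw [mul_pow, hEsq]
      linarith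
    have h6 : 0 < Real.sqrt Z := Real.sqrt_pos.2 hZ0
    rw [div_le_iff₀ h6]
    have h7 : G * (2 / 3 * Real.exp (c1 * s / 2)) ≤ G * Real.sqrt Z :=
      mul_le_mul_of_nonneg_left h5 hG0.le
    have h8 : G * (2 / 3 * Real.exp (c1 * s / 2)) = 2 / 3 := by
      rw [show G * (2 / 3 * Real.exp (c1 * s / 2)) = 2 / 3 * (G * Real.exp (c1 * s / 2)) by ring, hEG]
      ring
    linarith
  have t3 : Real.exp (-(c' / 4 * s)) ≤ G := by
    rw [hG]
    apply Real.exp_le_exp.2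
    have h5 : c1 * s ≤ c' / 2 * s := mul_le_mul_of_nonneg_right h2 hs0.le
    linarith
  have t4 : 14 / ((q : ℝ) * Z) ≤ 28 * G := by
    rw [div_le_iff₀ (by positivity)]
    have h5 : E / 2 ≤ (q : ℝ) * Z := by
      have h9 : 1 * (Z : ℝ) ≤ (q : ℝ) * Z := mul_le_mul_of_nonneg_right hq1r hZ0.le
      linarith
    have h6 : 1 ≤ G * E := by
      have h8 : 1 ≤ Real.exp (c1 * s / 2) := Real.one_le_exp (by positivity)
      have h9 : G * E = (G * Real.exp (c1 * s / 2)) * Real.exp (c1 * s / 2) := by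
        rw [← hEsq]
        ring
      rw [h9, hEG, one_mul]
      exact h8
    have h7 : G * (E / 2) ≤ G * ((q : ℝ) * Z) := mul_le_mul_of_nonneg_left h5 hG0.le
    have h8 : G * (E / 2) = (G * E) / 2 := by ring
    have h9 : 28 * G * ((q : ℝ) * Z) = 28 * (G * ((q : ℝ) * Z)) := by ring
    rw [h9]
    linarith
  have hend : 219 * G ≤ Real.exp (-(c1 / 16 * s)) / q := by
    rw [le_div_iff₀ hq0]
    have h5 : G * Real.exp (3 * (c1 * s) / 8) * Real.exp (c1 / 16 * s) = Real.exp (-(c1 / 16 * s)) := by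
      rw [hG, ← Real.exp_add, ← Real.exp_add]
      congr 1
      ring
    have h6 : 219 ≤ Real.exp (3 * (c1 * s) / 8) := by
      have := Real.add_one_le_exp (3 * (c1 * s) / 8)
      linarith
    calc 219 * G * q ≤ 219 * G * Real.exp (c1 / 16 * s) := by gcongr
      _ ≤ Real.exp (3 * (c1 * s) / 8) * G * Real.exp (c1 / 16 * s) := by gcongr
      _ = Real.exp (-(c1 / 16 * s)) := by rw [← h5]; ring
  linarith

end Pool.Agent.Helper75.SE
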